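import Mathlib
import Pool.Agent.R473.DW.AlgMz

set_option autoImplicit false

/-!
# Polynomials in the coefficients of the KZ associator at long words `A ^ (n + j - 1) B w`
-/

namespace Pool.Agent.Results.MP_807c24_nt.AssociatorDigits

open Pool.Agent.R473.DW Pool.Agent.Y760.RT Pool.Agent.TH507.ZS Pool.Agent.R473.TB

/-- the multiple zeta value `ζ(s, w_1, …, w_r)`, up to sign the coefficient of
`A ^ (s - 1) B A ^ (w_1 - 1) B ⋯ A ^ (w_r - 1) B` in `Φ_KZ`;
`mzv [s_1, …, s_r]` is the sum of `∏ n_i ^ (-s_i)` over `n_1 > … > n_r ≥ 1` -/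
noncomputable def coefficient (s : ℕ) (w : List ℕ+) : ℝ := mzv (s :: w.map fun a : ℕ+ => (a : ℕ))

/-- the value of a polynomial in the variables `X (j, w)` at `X (j, w) = ζ(n + j, w)` -/
noncomputable def val {h : ℕ} {Λ : Finset (List ℕ+)} (n : ℕ)
    (P : MvPolynomial (Fin (h + 1) × Λ) ℚ) : ℝ :=
  MvPolynomial.aeval (fun x : Fin (h + 1) × Λ => coefficient (n + x.1) x.2) P

/-- the `k`-th digit after the point of `x` in base `b` (`k = 0` is the first one) -/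
noncomputable def digit (b : ℕ) (x : ℝ) (k : ℕ) : ℤ := ⌊(b : ℝ) ^ (k + 1) * x⌋ % b

/-- the number of different blocks of `n` consecutive digits of `x` in base `b` -/
noncomputable def blocks (b : ℕ) (x : ℝ) (n : ℕ) : ℕ :=
  (Set.range fun i : ℕ => fun j : Fin n => digit b x (i + j)).ncard

/-- `D` is a sum of `R` terms `a ∏ p ^ k(p)` over `p ∈ S`, with integers `|a| ≤ R` and integers
`|k(p)| ≤ X` -/
def SUnitSum (S : Finset ℕ) (R : ℕ) (X : ℝ) (D : ℚ) : Prop :=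
  ∃ (a : Fin R → ℤ) (k : Fin R → ℕ → ℤ), (∀ r, |a r| ≤ R) ∧ (∀ r, ∀ p ∈ S, |(k r p : ℝ)| ≤ X) ∧
    D = ∑ r, (a r : ℚ) * ∏ p ∈ S, (p : ℚ) ^ k r p

/-- **Result.** Let `Λ` be a finite set of tuples of positive integers, `h ≥ 0`, and let
`P_1, …, P_m` be polynomials with rational coefficients in the variables `X (j, w)`, `j ≤ h`,
`w ∈ Λ`, such that `1, P_1, …, P_m` are linearly independent. Let `P_s(n)` be the value of `P_s`
at `X (j, w) = ζ(n + j, w)`.
(1) For every finite set `S` of primes there is `K ≥ 2` such that for all `R`, `C` and `B > 1`, all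
large `n`, all `D_1, …, D_m`, not all zero, which are sums of at most `R` `S`-units of height
exponential in `C n`, and all integers `p`:
`|D_1 P_1(n) + … + D_m P_m(n) - p| > B ^ (-n) min(1, |D_i| K ^ (-n))` for every `i`.
(2) For every base `b` there is `κ` such that for all `ε > 0` and `C` and all large `n` no word of
at least `ε n` digits occurs at two different places, not both before `κ n`, in the first `C n`
digits of the expansions of `P_1(n), …, P_m(n)` in base `b`.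
(3) For every base `b`, every `C` and nonconstant `P` the expansion of `P(n)` in base `b` has more
than `C n` different blocks of `n` digits, for all large `n`. -/
theorem result (Λ : Finset (List ℕ+)) (h m : ℕ)
    (P : Fin m → MvPolynomial (Fin (h + 1) × Λ) ℚ)
    (hP : ∀ (v : Fin m → ℚ) (c : ℚ), ∑ s, v s • P s = MvPolynomial.C c → v = 0) :
    (∀ S : Finset ℕ, (∀ p ∈ S, p.Prime) → ∃ K : ℕ, 2 ≤ K ∧ ∀ (R : ℕ) (C B : ℝ), 1 < B →
      ∃ n0 : ℕ, ∀ n : ℕ, n0 ≤ n → ∀ D : Fin m → ℚ, (∀ s, SUnitSum S R (C * n) (D s)) →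
      (∃ s, D s ≠ 0) → ∀ (p : ℤ) (i : Fin m),
      (B ^ n)⁻¹ * min 1 (|(D i : ℝ)| / (K : ℝ) ^ n) < |∑ s, (D s : ℝ) * val n (P s) - p|) ∧
    (∀ b : ℕ, 2 ≤ b → ∃ κ : ℝ, ∀ ε C : ℝ, 0 < ε → ∃ n0 : ℕ, ∀ n : ℕ, n0 ≤ n →
      ∀ (s t : Fin m) (i j : ℕ), (i : ℝ) ≤ C * n → (j : ℝ) ≤ C * n →
      κ * n ≤ max i j → (s, i) ≠ (t, j) → ∃ l : ℕ, (l : ℝ) < ε * n ∧
        digit b (val n (P s)) (i + l) ≠ digit b (val n (P t)) (j + l)) ∧
    (∀ b : ℕ, 2 ≤ b → ∀ Q : MvPolynomial (Fin (h + 1) × Λ) ℚ, (∀ c, Q ≠ MvPolynomial.C c) →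
      ∀ C : ℝ, ∃ n0 : ℕ, ∀ n : ℕ, n0 ≤ n → C * n < blocks b (val n Q) n) :=
  ⟨fun _ hS => mz_forms P hP hS, fun _ hb => mz_digits P hP hb,
    fun _ hb Q hQ C => mz_blocks Q hQ hb C⟩

end Pool.Agent.Results.MP_807c24_nt.AssociatorDigits
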