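import Pool.Agent.R913.Mix.Asc

/-!
# MP_807c24_nt: the smallest torsor which contains the KZ associator

Let `d ≥ 1` and let `S` be the torsor of associators modulo terms of degree `> d`: the set of all pairs `(μ, Φ)` in
`M(ℂ)`, truncated, in a faithful representation as a set of matrices (for instance as isomorphisms between the
truncated universal enveloping algebras of the completed braid Lie algebras and of the graded ones), and let `c` be
the point `(2πi, Φ_KZ)`.  `S` is a torsor defined over `ℚ` under the truncated group `GRT`, which is an extension of
the multiplicative group by a unipotent group and connected, so `S` is irreducible; its Lie algebra is spanned by the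
matrix `W` of the degree and by the truncated Lie algebra `L = grt_1`, which is generated by homogeneous elements
`σ_j` over `ℚ` of degrees `n_j`; we take representatives of a basis of `L / [L, L]`.  For every `j` the quotient of
`GRT` by the normal subgroup with Lie algebra `[L, L] + ∑_{i ≠ j} ℂ σ_i` is a group of matrices of size two, which
gives a torsor of matrices of size two, defined over `ℚ`, with a point with rows `(1, 0)` and `(z_j, (2πi) ^ n_j)`.
We may add these matrices of size two to the given representation of `S`.

The torsor of size two comes from an extension in the category of mixed Tate motives over `ℤ` (the motivic Galois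
group acts on `S` through a homomorphism to `GRT`), and the extension groups in this category are known: so
`z_j = t_j + s_j (2πi) ^ n_j + r_j ζ(n_j)` with rational `t_j`, `s_j`, `r_j`, and `r_j = 0` unless `n_j ≥ 3` is odd.

Q1 says that, for all `d`, all polynomials with rational coefficients which vanish at `c` vanish on `S` (`Generic`).
Let `Ω` be the intersection of all subtorsors over `ℚ` which contain `c`, the smallest torsor which contains the KZ
associator.

**Theorem.**
1. The image of `Lie(Ω) ∩ L` in `L / [L, L]` is spanned by the elements `ρ_m = ∑_{n_j = m} r_j σ_j` for the odd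
   `m ≥ 3` for which `ζ(m)` is irrational.
2. `Ω = S` if and only if the degrees `n_j` are distinct, odd and at least `3`, all `r_j` are different from `0` and
   all `ζ(n_j)` are irrational.
3. `c` is a generic point of `S` if and only if the Zariski closure of `c` over `ℚ` is a torsor (that is, with `x`,
   `y`, `z` it contains `x y⁻¹ z`) and the condition in 2 holds.

So Q1 is equivalent to the conjunction of three statements of a different nature:
(A) `grt_1` is generated by one element in each odd degree `≥ 3` (a conjecture of Deligne, Drinfeld and Ihara; here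
`r_j ≠ 0` is automatic, as the coefficient of `A ^ (m - 1) B` vanishes on commutators and gives the period `ζ(m)`);
(B) the odd zeta values `ζ(3), ζ(5), …` are irrational;
(C) the Zariski closures over `ℚ` of the truncations of `(2πi, Φ_KZ)` are torsors.
And (A) and (B) together hold if and only if no proper subtorsor over `ℚ` of a truncated torsor of associators
contains the KZ associator.  It is not assumed here that `grt_1` is the motivic Lie algebra, nor anything about the
generators of `grt_1`, their number or their degrees.

The proof uses the theorem on torsors of MP_e54452_nt.OddZetaTorsors (`Pool/Agent/R913/Mix`), where the group is the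
motivic one and its generators are known; new here are arbitrary generators and their relations.
-/

set_option autoImplicit false

namespace Pool.Agent.Results.MP_807c24_nt.AssociatorTorsors

open Matrix Pool.Agent.R913.Mix Pool.Agent.R913.Tor Pool.Agent.TH127.PT

/-- The zeta value `ζ(n) = ∑ 1 / k ^ n`, sum over the positive integers `k`. -/
noncomputable def zet (n : ℕ) : ℝ := ∑' k : ℕ, 1 / ((k : ℝ) + 1) ^ n

variable {N : Type} [Fintype N] [DecidableEq N] {J : Type} [Fintype J] [DecidableEq J]

/-- The degree `m` is odd, at least `3`, and `ζ(m)` is irrational. -/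
def IrrationalDegree (m : ℕ) : Prop := Odd m ∧ 3 ≤ m ∧ Irrational (zet m)

/-- The period `t j + s j (2πi) ^ n j + r j ζ(n j)`. -/
noncomputable def period (n : J → ℕ) (r s t : J → ℚ) (j : J) : ℂ :=
  (t j : ℂ) + (s j : ℂ) * (2 * Real.pi * Complex.I) ^ n j + (r j : ℂ) * (zet (n j) : ℂ)

/-- The combination `∑ r j σ j` of the generators of degree `m`. -/
noncomputable def zetaPart (σ : J → Matrix N N ℂ) (n : J → ℕ) (r : J → ℚ) (m : ℕ) : Matrix N N ℂ :=
  ∑ j, if n j = m then (r j : ℂ) • σ j else 0

/-- `S` is an irreducible torsor of matrices over `ℚ` containing `c`, its Lie algebra is spanned by `W` and by the Lie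
algebra generated by rational matrices `σ j` of positive degree `n j`, for every `j` the rows `a j`, `b j` form a
subobject of rank two with the periods `1, 0` and `period j, (2πi) ^ n j`, on which only `W` and `σ j` are not zero,
and only generators of odd degree `≥ 3` may have a period which involves a zeta value. -/
structure AssociatorTorsor (S : Set (Matrix N N ℂ)) (c W : Matrix N N ℂ) (σ : J → Matrix N N ℂ)
    (n : J → ℕ) (a b : J → N) (r s t : J → ℚ) : Prop where
  sub : IsSubtorsor (⊥ : Subfield ℂ) S
  irr : Irred S
  mem : c ∈ S
  pos : ∀ j, 0 < n j
  gen : Blk (⊥ : Subfield ℂ) W σ n a b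
  row : Pt c a b n (period n r s t) (2 * Real.pi * Complex.I)
  lie : LM S = Submodule.span ℂ {W} ⊔ Lg σ
  ext : ∀ j, r j ≠ 0 → Odd (n j) ∧ 3 ≤ n j

/-- There is one generator in each degree which occurs, the degrees are odd and at least `3`, their zeta values are
irrational and occur in the periods. -/
def OneIrrationalZetaEach (n : J → ℕ) (r : J → ℚ) : Prop :=
  Function.Injective n ∧ ∀ j, r j ≠ 0 ∧ IrrationalDegree (n j)

/-- **The smallest torsor which contains the KZ associator.** -/
theorem result [Nonempty J] (S : Set (Matrix N N ℂ)) (c W : Matrix N N ℂ) (σ : J → Matrix N N ℂ) (n : J → ℕ)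
    (a b : J → N) (r s t : J → ℚ) (h : AssociatorTorsor S c W σ n a b r s t) :
    (LM (hull (⊥ : Subfield ℂ) c) ⊓ Lg σ) ⊔ der (Lg σ) =
      Submodule.span ℂ {y | ∃ m, IrrationalDegree m ∧ y = zetaPart σ n r m} ⊔ der (Lg σ) ∧
    (hull (⊥ : Subfield ℂ) c = S ↔ OneIrrationalZetaEach n r) ∧
    (Generic (⊥ : Subfield ℂ) S c ↔ IsTorsor (Zar (⊥ : Subfield ℂ) c) ∧ OneIrrationalZetaEach n r) := by
  have hK : ∀ x ∈ (⊥ : Subfield ℂ), IsAlgebraic ℚ x := by
    intro x hx
    obtain ⟨q, rfl⟩ := mem_bot.1 hx
    exact isAlgebraic_algebraMap (R := ℚ) (A := ℂ) q
  have hτ := transc_K hK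
  have h1 := fun y => hull_image (y := y) h.gen h.pos h.row hτ h.sub h.irr h.mem h.lie
  have h2 := hull_eq_iff h.gen h.pos h.row hτ h.sub h.irr h.mem h.lie
  have h3 := generic_iff h.gen h.pos h.row hτ h.sub h.irr h.mem h.lie
  have h4 : Indep (⊥ : Subfield ℂ) n (period n r s t) (2 * Real.pi * Complex.I) ↔ OneIrrationalZetaEach n r :=
    indep_zper (ζ := zet) (s := s) (t := t) h.ext
  refine ⟨?_, h2.trans h4, h3.trans (and_congr_right fun _ => h4)⟩
  ext y
  rw [h1 y]
  exact zper_span (ζ := zet) (s := s) (t := t) h.gen h.ext

end Pool.Agent.Results.MP_807c24_nt.AssociatorTorsors
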