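import Mathlib
import Pool.Agent.R390.MZ.PerGen

set_option autoImplicit false

/-!
# The kernel of the evaluation at the KZ associator: three cases

Let `φ_KZ : ℚ[M] → ℂ` be the evaluation at the Knizhnik-Zamolodchikov associator.  The subring
generated by the `φ_b` is a weighted polynomial ring with some number `d_k` of monomials of weight
`k`.  Either `φ_KZ` is injective; or its kernel is principal, generated by a prime `f` of this
subring, and the dimensions of the spaces of values of bounded degree are known exactly in terms of
the `d_k`; or the kernel contains `f`, `g` in this subring, `f` prime and `g` not a multiple of `f`,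
and these dimensions are known up to the weight of `g` and bounded above it.
-/

open Pool.Agent.R390.MZ

namespace Pool.Agent.Results.MP_807c24_nt.KernelTrichotomy

/-- Let `M` be a model of the ring `R = ℚ[M]` with the homomorphism `M.per = φ_KZ`, the element
`M.L = μ` and the polynomial subring generated by the `φ_b` (with the inclusion `M.mot`), whose
variables have the values `x_s` and weights `wt s`. Let `d_k` be the number of monomials of weight
`k`, `d_0 = 1`, and assume that their values span the space `Z_k` of the multiple zeta values of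
weight `k`. Let `C_k` be the sum of `Z_0 + … + Z_k` and `2πi (Z_0 + … + Z_(k-1))` (the values of the
elements of degree at most `k` without negative powers of `μ`), and let
`E_k = ∑_{j ≤ k} (d_j + d_(j-1))` (`d_j = 0`, `E_j = 0` for `j < 0`). Then one of the following holds.
(i) `φ_KZ` is injective, and `dim C_k = E_k` for all `k`.
(ii) The kernel of `φ_KZ` is generated by one prime element `f` of the polynomial ring, and there is
`n ≥ 1` with `dim C_k = E_k - E_(k-n)` for all `k`.
(iii) The kernel contains two elements `f`, `g` of the polynomial ring, `f` prime and `g` not a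
multiple of `f`, and there are `m ≥ n ≥ 1` with `dim C_k = E_k - E_(k-n)` for all `k < m`, and
`dim C_k ≤ E_k - E_(k-n)` and `dim C_k ≤ E_k - E_(k-n) - E_(k-m) + E_(k-n-m)` for all `k`. -/
theorem result {R : Type} [CommRing R] [Algebra ℚ R] {σ : Type} (M : PeriodRing R σ)
    (wt : σ → ℕ) (d : ℕ → ℕ) (h00 : d 0 = 1) (hB : Gens ZL d wt M.x) :
    (Function.Injective M.per ∧ ∀ k, Module.finrank ℚ (CP ZL k) = sumTo (effD d) k) ∨
    (∃ f n, 1 ≤ n ∧ Prime f ∧ RingHom.ker M.per = Ideal.span {M.mot f} ∧
      ∀ k, Module.finrank ℚ (CP ZL k) + sh (sumTo (effD d)) n k = sumTo (effD d) k) ∨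
    (∃ f g n m, 1 ≤ n ∧ n ≤ m ∧ Prime f ∧ ¬ f ∣ g ∧ M.per (M.mot f) = 0 ∧ M.per (M.mot g) = 0 ∧
      (∀ k < m, Module.finrank ℚ (CP ZL k) + sh (sumTo (effD d)) n k = sumTo (effD d) k) ∧
      ∀ k, Module.finrank ℚ (CP ZL k) + sh (sumTo (effD d)) n k ≤ sumTo (effD d) k ∧
        Module.finrank ℚ (CP ZL k) + sh (sumTo (effD d)) n k + sh (sumTo (effD d)) m k ≤
          sumTo (effD d) k + sh (sumTo (effD d)) (n + m) k) :=
  tri_perD M h00 hB

end Pool.Agent.Results.MP_807c24_nt.KernelTrichotomy
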