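import Mathlib
import Pool.Agent.R390.MZ.PerGen

set_option autoImplicit false

/-!
# The kernel of the evaluation at the KZ associator: a supermodular defect

Let `C_k` be the space of the values of `φ_KZ : ℚ[M] → ℂ` at the elements of degree at most `k`
without negative powers of `μ`, and `E_k` the dimension of the space of these elements.  Then the
defects `D_k = E_k - dim C_k` satisfy `D_(k+i) + D_(k+j) ≤ D_(k+i+j) + D_k` for all `k ≥ 1` and all
`i, j ≥ 2`.
-/

open Pool.Agent.R390.MZ

namespace Pool.Agent.Results.MP_807c24_nt.SupermodularKernel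

/-- `E_k - dim C_k`, where `E_k = ∑_{j ≤ k} (d_j + d_(j-1))` and `C_k` is the sum of `Z_0 + … + Z_k`
and `2πi (Z_0 + … + Z_(k-1))` -/
noncomputable def defect (d : ℕ → ℕ) (k : ℕ) : ℤ :=
  (sumTo (effD d) k : ℤ) - Module.finrank ℚ (CP ZL k)

/-- Let `x_s` be real numbers with weights `wt s`, let `d_k` be the number of monomials of weight `k`,
`d_0 = 1`, and assume that their values span the space `Z_k` of the multiple zeta values of weight
`k` (for example the values at the KZ associator of homogeneous generators of the subring of `ℚ[M]`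
generated by the `φ_b`, which is a polynomial ring). Then the defects satisfy
`D_(k+i) + D_(k+j) ≤ D_(k+i+j) + D_k` for all `k ≥ 1` and all `i, j ≥ 2`. -/
theorem result {σ : Type} (x : σ → ℝ) (wt : σ → ℕ) (d : ℕ → ℕ) (h00 : d 0 = 1)
    (hB : Gens ZL d wt x) (i j k : ℕ) (hi : 2 ≤ i) (hj : 2 ≤ j) (hk : 1 ≤ k) :
    defect d (k + i) + defect d (k + j) ≤ defect d (k + i + j) + defect d k := by
  obtain ⟨l, rfl⟩ : ∃ l, k = l + 1 := ⟨k - 1, by omega⟩
  exact super_perD h00 hB hi hj l

end Pool.Agent.Results.MP_807c24_nt.SupermodularKernel
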